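import Pool.Agent.H.MP_cc494f_an.B

namespace Pool.Agent.Results.MP_cc494f_an.Gray
open MeasureTheory

/-- The Gray Takagi function: the sum of `2^{-n} r_n(x) dist (2^n x, ℤ)`. -/
noncomputable def gray (x : ℝ) : ℝ :=
  ∑' n : ℕ, (-1 : ℝ) ^ ⌊2 ^ n * x⌋ * Metric.infDist (2 ^ n * x) (Set.range ((↑) : ℤ → ℝ)) / 2 ^ n

open Pool.Agent.H.MP_cc494f_an in
theorem result :
    ∀ᵐ y : ℝ ∂volume, {x | x ∈ Set.Icc (0 : ℝ) 1 ∧ gray x = y}.Finite := by
  rw [ae_iff]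
  refine measure_mono_null (fun y hy => ?_) I_null
  have e : {x | x ∈ Set.Icc (0 : ℝ) 1 ∧ gray x = y} = R 1 0 y := by
    ext t
    simp only [R, Set.mem_ofPred_eq, Set.mem_Icc, and_assoc]
    refine and_congr_right fun h0 => and_congr_right fun h1 => ?_
    rw [zero_mul, add_zero, F_one h0 h1]
    rfl
  rw [Set.mem_ofPred_eq, e] at hy
  exact hy

end Pool.Agent.Results.MP_cc494f_an.Gray
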